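import Mathlib
import Pool.Agent.Y104.LocSpec.Defs
import Pool.Agent.Y104.LocSpec.Proof
import Pool.Agent.Y104.LocSpec.TwoVec
import Pool.Agent.Y104.LocSpec.Incl

set_option autoImplicit false

open Matrix Pool.Agent.Y104.LocSpec

namespace Pool.Agent.Results.MP_add2b9_al.OneInclusionSuffices

/-- The set in the definition of the local spectrum does not depend on the decomposition:
it is the index set of nonzero components of any decomposition along the generalised
eigenspaces. -/
theorem localSpectrum_eq_support {kk : Type*} [Field kk] [IsAlgClosed kk] [CharZero kk] {n : ℕ}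
    (T : Mat kk n) (x : Fin n → kk) (y : kk →₀ (Fin n → kk))
    (hy : ∀ m, ((T - m • (1 : Mat kk n)) ^ n) *ᵥ y m = 0) (hs : (y.sum fun _ v => v) = x) :
    localSpectrum T x = {l | y l ≠ 0} := by
  ext l
  constructor
  · intro hl hc
    have h1 := (mem_localSpectrum_iff T x l).mp hl _ (decomp_ann T x y hy hs)
    exact eval_prod_ne y.support l (by simpa using hc) n h1
  · intro hl
    exact ⟨y, hy, hs, hl⟩

/-- For `y0 = x0` the standard form between two vectors is the standard form of the question. -/
theorem isStandardTo_self {kk : Type*} [Field kk] {n : ℕ} (x0 : Fin n → kk)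
    (φ : Mat kk n → Mat kk n) : IsStandardTo x0 x0 φ ↔ IsStandard x0 φ := Iff.rfl

/-- Let `kk` be an algebraically closed field of characteristic zero, let `x0` be a nonzero
vector and let `y0` be any vector.
1. For every map `φ` on the `n` by `n` matrices over `kk`: the local spectrum of `[φ T, φ S]`
at `y0` agrees with the local spectrum of `[T, S]` at `x0` for all `T, S` if and only if
`φ T = ξ(T) A T A⁻¹ + η(T) 1` for an invertible `A` with `A x0 = y0`, an arbitrary function `η`
and a function `ξ` with values `1` and `-1` which is constant off the exceptional set of `x0`.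
2. One inclusion, and only for the nonzero local eigenvalues, gives this form off the scalar
matrices. For `y0 ≠ 0` the following are equivalent for every map `φ`:
every nonzero local eigenvalue of `[T, S]` at `x0` is a local eigenvalue of `[φ T, φ S]` at `y0`,
for all `T, S`; the local spectrum of `[φ T, φ S]` at `y0` agrees with that of `[T, S]` at `x0`
for all `T, S` which are not scalar matrices; `φ` has the form of 1 at all matrices which are not
scalar matrices (and is arbitrary at the scalar matrices).
3. If `n` is at least two then the values of `φ` at the non-scalar matrices determine `A`, and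
`ξ(T)` and `η(T)` at every non-scalar matrix `T`. -/
theorem result {kk : Type*} [Field kk] [IsAlgClosed kk] [CharZero kk] {n : ℕ}
    (x0 y0 : Fin n → kk) (hx0 : x0 ≠ 0) :
    (∀ φ : Mat kk n → Mat kk n,
      (∀ T S : Mat kk n,
        localSpectrum (φ T * φ S - φ S * φ T) y0 = localSpectrum (T * S - S * T) x0) ↔
      IsStandardTo x0 y0 φ) ∧
    (y0 ≠ 0 → ∀ φ : Mat kk n → Mat kk n,
      List.TFAE [
        ∀ T S : Mat kk n, ∀ l ∈ localSpectrum (T * S - S * T) x0, l ≠ 0 →
          l ∈ localSpectrum (φ T * φ S - φ S * φ T) y0,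
        ∀ T S : Mat kk n, (¬ ∃ c : kk, T = c • (1 : Mat kk n)) →
          (¬ ∃ c : kk, S = c • (1 : Mat kk n)) →
          localSpectrum (φ T * φ S - φ S * φ T) y0 = localSpectrum (T * S - S * T) x0,
        IsStandardOff x0 y0 φ]) ∧
    (2 ≤ n → ∀ (A A' : Mat kk n) (η η' ξ ξ' : Mat kk n → kk), IsUnit A → IsUnit A' →
      A *ᵥ x0 = y0 → A' *ᵥ x0 = y0 → (∀ T, ξ T = 1 ∨ ξ T = -1) → (∀ T, ξ' T = 1 ∨ ξ' T = -1) →
      (∀ T : Mat kk n, (¬ ∃ c : kk, T = c • (1 : Mat kk n)) →
        ξ T • (A * T * A⁻¹) + η T • (1 : Mat kk n) =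
          ξ' T • (A' * T * A'⁻¹) + η' T • (1 : Mat kk n)) →
      A = A' ∧ ∀ T : Mat kk n, (¬ ∃ c : kk, T = c • (1 : Mat kk n)) →
        ξ T = ξ' T ∧ η T = η' T) :=
  ⟨fun φ => standardTo_iff x0 y0 hx0 φ, fun hy0 φ => off_tfae x0 y0 hx0 hy0 φ,
    fun hn A A' η η' ξ ξ' hA hA' hAx hAx' hξ hξ' h =>
      standardTo_unique hn x0 y0 hx0 A A' η η' ξ ξ' hA hA' hAx hAx' hξ hξ' h⟩

end Pool.Agent.Results.MP_add2b9_al.OneInclusionSuffices
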